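import Pool.Agent.W544.PG.Defs8
import Pool.Agent.W318.PG.HC2
import Pool.Agent.W410.PG.FF2

/-!
# TP-HCX: rational forms in orthonormal coordinates
-/

open Matrix Finset Module

set_option autoImplicit false
set_option linter.unusedSimpArgs false

namespace Pool.Agent.W216.TP

open Pool.Agent.W544.PG Pool.Agent.W74.PG
open Pool.Agent.W565.K3.Ext
open Pool.Agent.W318.PG (prj prj_apply prj_zero)

noncomputable section

variable {n s m r : ℕ}

/-- the extension of a product of pairings -/
theorem gen_eq (Q : Matrix (Fin n) (Fin n) ℚ) (q : Fin m → Option (Fin s))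
    (σ : Fin (A q).card → Fin (A q).card) (h1 : ∀ j, σ (σ j) = j) (h2 : ∀ j, σ j ≠ j)
    (t : (Fin (A q).card → Fin n) → ℚ)
    (ht : ∀ I, t I = ∏ j with j < σ j, Q (I j) (I (σ j))) (I : Fin m → Fin s ⊕ Fin n) :
    Φ q t I = (∏ j with sg q σ j = j,
        Sum.elim (fun a => if q j = some a then (1 : ℚ) else 0) (fun _ => 0) (I j)) *
      ∏ j with j < sg q σ j, Matrix.fromBlocks 0 0 0 Q (I j) (I (sg q σ j)) := by
  by_cases hI : pat I = q
  · obtain ⟨K, rfl⟩ := exists_mk I hI
    rw [Φ_mk, ht]
    have p1 : ∏ j with sg q σ j = j, Sum.elim (fun a => if q j = some a then (1 : ℚ) else 0)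
        (fun _ => 0) (mk q K j) = 1 := by
      refine Finset.prod_eq_one fun j hj => ?_
      rw [Finset.mem_filter] at hj
      cases hq : q j with
      | none =>
        obtain ⟨i, rfl⟩ := exists_ee hq
        have := hj.2
        rw [sg_ee] at this
        exact absurd ((ee q).injective (Subtype.ext this)) (h2 i)
      | some a =>
        rw [mk_some K hq]
        simp
    rw [p1, one_mul]
    -- the product over pairs
    refine Finset.prod_nbij (fun i => (ee q i : Fin m)) ?_ ?_ ?_ ?_
    · intro i hi
      rw [Finset.mem_filter] at hi ⊢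
      refine ⟨Finset.mem_univ _, ?_⟩
      rw [sg_ee]
      exact (ee q).lt_iff_lt.2 hi.2
    · intro i _ i' _ h
      exact (ee q).injective (Subtype.ext h)
    · intro j hj
      rw [Finset.mem_coe, Finset.mem_filter] at hj
      cases hq : q j with
      | none =>
        obtain ⟨i, rfl⟩ := exists_ee hq
        refine ⟨i, ?_, rfl⟩
        rw [Finset.mem_coe, Finset.mem_filter]
        refine ⟨Finset.mem_univ _, ?_⟩
        have := hj.2
        rw [sg_ee] at this
        exact (ee q).lt_iff_lt.1 this
      | some a =>
        have := hj.2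
        rw [sg_some σ (by rw [hq]; simp)] at this
        exact absurd this (lt_irrefl _)
    · intro i _
      rw [sg_ee, mk_ee, mk_ee]
      rfl
  · rw [Φ_zero q t I hI]
    have : ∃ j, pat I j ≠ q j := by
      by_contra hcon
      push Not at hcon
      exact hI (funext hcon)
    obtain ⟨j, hj⟩ := this
    symm
    cases hq : q j with
    | some a =>
      apply mul_eq_zero_of_left
      have hfix : sg q σ j = j := sg_some σ (by rw [hq]; simp)
      apply Finset.prod_eq_zero (i := j) (by
        rw [Finset.mem_filter]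
        exact ⟨Finset.mem_univ j, hfix⟩)
      rw [hq] at hj
      cases hIj : I j with
      | inl b =>
        unfold pat at hj
        rw [hIj] at hj
        simp only [Sum.elim_inl, ne_eq, Option.some.injEq] at hj
        simp only [Sum.elim_inl, hq, Option.some.injEq]
        rw [if_neg (fun h => hj h.symm)]
      | inr b => rfl
    | none =>
      obtain ⟨i, rfl⟩ := exists_ee hq
      have hb : ∃ b, I (ee q i) = Sum.inl b := by
        unfold pat at hj
        rw [hq] at hj
        cases hIj : I (ee q i) with
        | inl b => exact ⟨b, rfl⟩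
        | inr b => rw [hIj] at hj; simp at hj
      obtain ⟨b, hb⟩ := hb
      apply mul_eq_zero_of_right
      rcases lt_or_gt_of_ne (h2 i) with h3 | h3
      · -- σ i < i
        apply Finset.prod_eq_zero (i := (ee q (σ i) : Fin m))
        · rw [Finset.mem_filter]
          refine ⟨Finset.mem_univ _, ?_⟩
          rw [sg_ee, h1]
          exact (ee q).lt_iff_lt.2 h3
        · rw [sg_ee, h1, hb]
          cases I (ee q (σ i)) with
          | inl c => rfl
          | inr c => rfl
      · apply Finset.prod_eq_zero (i := (ee q i : Fin m))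
        · rw [Finset.mem_filter]
          refine ⟨Finset.mem_univ _, ?_⟩
          rw [sg_ee]
          exact (ee q).lt_iff_lt.2 h3
        · rw [sg_ee, hb]
          cases I (ee q (σ i)) with
          | inl c => rfl
          | inr c => rfl

theorem gen_mem (Q : Matrix (Fin n) (Fin n) ℚ) (c : Fin n → Fin r) (d : Fin s → Fin r) (hQ : BD c Q)
    (a : Fin m → Fin r) (q : Fin m → Option (Fin s))
    (σ : Fin (A q).card → Fin (A q).card) (κ : Fin (A q).card → Fin r)
    (h1 : ∀ j, σ (σ j) = j) (h2 : ∀ j, σ j ≠ j)
    (u : (Fin (A q).card → Fin n) → ℚ)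
    (hu : ∀ K, u K = ∏ j with j < σ j, if c (K j) = κ j then Q (K j) (K (σ j)) else 0) :
    prj c d a (Φ q u) ∈ algK Q c d a := by
  by_cases hB : ∀ j b, q j = some b → d b = a j
  swap
  · rw [prj_zero c d a q u (fun K _ h => absurd h hB)]
    exact Submodule.zero_mem _
  by_cases hσ : ∀ i, a (ee q (σ i)) = a (ee q i)
  swap
  · rw [prj_zero c d a q u ?_]
    · exact Submodule.zero_mem _
    · intro K hK _
      push Not at hσ
      obtain ⟨i, hi⟩ := hσ
      have key : ∀ i', i' < σ i' → a (ee q (σ i')) ≠ a (ee q i') → u K = 0 := by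
        intro i' hlt hne
        rw [hu]
        apply Finset.prod_eq_zero (i := i')
        · rw [Finset.mem_filter]
          exact ⟨Finset.mem_univ _, hlt⟩
        · have h3 : Q (K i') (K (σ i')) = 0 := by
            apply hQ
            rw [hK, hK]
            exact fun h => hne h.symm
          rw [h3]
          simp
      rcases lt_or_gt_of_ne (h2 i) with h3 | h3
      · refine key (σ i) ?_ ?_
        · rw [h1]
          exact h3
        · rw [h1]
          exact fun h => hi h.symm
      · exact key i h3 hi
  by_cases hκ : ∀ i, i < σ i → κ i = a (ee q i)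
  swap
  · rw [prj_zero c d a q u ?_]
    · exact Submodule.zero_mem _
    · intro K hK _
      push Not at hκ
      obtain ⟨i, hlt, hi⟩ := hκ
      rw [hu]
      apply Finset.prod_eq_zero (i := i)
      · rw [Finset.mem_filter]
        exact ⟨Finset.mem_univ _, hlt⟩
      · rw [if_neg]
        rw [hK]
        exact fun h => hi h.symm
  apply Submodule.subset_span
  refine ⟨sg q σ, fun j b => if q j = some b then 1 else 0, ?_, ?_, ?_, ?_⟩
  · intro j
    cases hj : q j with
    | none =>
      obtain ⟨i, rfl⟩ := exists_ee hj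
      rw [sg_ee, sg_ee, h1]
    | some b =>
      have h := sg_some σ (j := j) (by rw [hj]; simp)
      rw [h, h]
  · intro j
    cases hj : q j with
    | none =>
      obtain ⟨i, rfl⟩ := exists_ee hj
      rw [sg_ee, hσ]
    | some b =>
      rw [sg_some σ (j := j) (by rw [hj]; simp)]
  · intro j b hb
    by_cases h : q j = some b
    · exact hB j b h
    · exact absurd (if_neg h) hb
  · intro J
    rw [Finset.prod_ite_zero, mul_ite, mul_zero]
    have hG := gen_eq Q q σ h1 h2 (fun K => ∏ j with j < σ j, Q (K j) (K (σ j)))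
      (fun _ => rfl) J
    rw [← hG, prj_apply]
    by_cases hp : pat J = q
    swap
    · rw [Φ_zero q _ J hp, Φ_zero q _ J hp, ite_self, ite_self]
    obtain ⟨K, rfl⟩ := exists_mk J hp
    rw [Φ_mk, Φ_mk]
    by_cases hJ : ∀ j, Sum.elim d c (mk q K j) = a j
    · rw [if_pos hJ, if_pos (fun j _ => hJ j), hu]
      refine Finset.prod_congr rfl fun i hi => ?_
      rw [Finset.mem_filter] at hi
      rw [if_pos]
      rw [hκ i hi.2, ← hJ (ee q i), mk_ee]
      rfl
    · rw [if_neg hJ]
      symm
      split_ifs with hc
      · push Not at hJ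
        obtain ⟨j, hj⟩ := hJ
        cases hq : q j with
        | some b =>
          rw [mk_some K hq] at hj
          exact absurd (hB j b hq) hj
        | none =>
          obtain ⟨i, rfl⟩ := exists_ee hq
          rw [mk_ee] at hj
          have hj' : c (K i) ≠ a (ee q i) := hj
          have hcc : ∀ i', i' < σ i' → c (K i') = a (ee q i') := by
            intro i' hlt
            have h3 := hc (ee q i') (by
              rw [Finset.mem_filter, sg_ee]
              exact ⟨Finset.mem_univ _, (ee q).lt_iff_lt.2 hlt⟩)
            rw [mk_ee] at h3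
            exact h3
          rcases lt_or_gt_of_ne (h2 i) with h3 | h3
          · apply Finset.prod_eq_zero (i := σ i)
            · rw [Finset.mem_filter, h1]
              exact ⟨Finset.mem_univ _, h3⟩
            · rw [h1]
              apply hQ
              rw [hcc (σ i) (by rw [h1]; exact h3), hσ]
              exact fun h => hj' h.symm
          · exact absurd (hcc i h3) hj'
      · rfl

/-- a change of one transcendental slot -/
theorem update_mk (q : Fin m → Option (Fin s)) (K : Fin (A q).card → Fin n)
    (i : Fin (A q).card) (l : Fin n) :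
    Function.update (mk q K) (ee q i) (Sum.inr l) = mk q (Function.update K i l) := by
  funext j
  cases hq : q j with
  | some b =>
    have hne : j ≠ ee q i := by
      intro h
      have h2 := q_ee (q := q) i
      rw [← h, hq] at h2
      exact absurd h2 (by simp)
    rw [Function.update_of_ne hne, mk_some K hq, mk_some _ hq]
  | none =>
    obtain ⟨i', rfl⟩ := exists_ee hq
    rw [mk_ee]
    by_cases h : i' = i
    · subst h
      rw [Function.update_self, Function.update_self]
    · have hne : (ee q i' : Fin m) ≠ ee q i := fun h' => h ((ee q).injective (Subtype.ext h'))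
      rw [Function.update_of_ne hne, Function.update_of_ne h, mk_ee]

/-- slices -/
theorem slice (Z : Matrix (Fin n) (Fin n) ℂ) (t : (Fin m → Fin s ⊕ Fin n) → ℚ)
    (h : act (fromBlocks 0 0 0 Z) (cx t) = 0) (q : Fin m → Option (Fin s)) :
    Kil Z (fun K => t (mk q K)) := by
  intro K
  have h1 := congrFun h (mk q K)
  unfold act cx at h1
  rw [Pi.zero_apply, sum_split q, Finset.sum_eq_zero, zero_add] at h1
  · rw [← h1]
    refine Finset.sum_congr rfl fun i _ => ?_
    rw [Fintype.sum_sum_type, mk_ee]
    simp only [fromBlocks_apply₁₂, fromBlocks_apply₂₂, Matrix.zero_apply, zero_mul,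
      Finset.sum_const_zero, zero_add]
    refine Finset.sum_congr rfl fun l _ => ?_
    rw [update_mk]
  · intro j hj
    rw [Finset.mem_filter] at hj
    obtain ⟨b, hb⟩ := Option.ne_none_iff_exists'.1 hj.2
    refine Finset.sum_eq_zero fun l _ => ?_
    rw [mk_some K hb]
    cases l with
    | inl l => simp
    | inr l => simp

open Pool.Agent.W544.K3 Pool.Agent.W417.K3.Fft Pool.Agent.W417.K3.Fft2 in
/-- first fundamental theorem for the unit form -/
theorem ffx {k : ℕ} (c : Fin n → Fin r) (t : (Fin k → Fin n) → ℚ)
    (ht : ∀ Z : Matrix (Fin n) (Fin n) ℂ, Zᵀ = -Z → BD c Z → Kil Z t)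
    (hsupp : ∀ J, t J ≠ 0 → ∀ i, (univ.filter fun j => c (J j) = i).card <
      (univ.filter fun a => c a = i).card) :
    t ∈ Submodule.span ℚ {s : (Fin k → Fin n) → ℚ |
      ∃ (σ : Fin k → Fin k) (κ : Fin k → Fin r), (∀ j, σ (σ j) = j) ∧
      (∀ j, σ j ≠ j) ∧
      ∀ J, s J = ∏ j with j < σ j,
        if c (J j) = κ j then (1 : Matrix (Fin n) (Fin n) ℚ) (J j) (J (σ j)) else 0} := by
  have hBD : BD c (1 : Matrix (Fin n) (Fin n) ℚ) := by
    intro a b hab
    exact Matrix.one_apply_ne (fun h => hab (by rw [h]))
  have hs : ∀ i j, (1 : Matrix (Fin n) (Fin n) ℚ) i j = (1 : Matrix (Fin n) (Fin n) ℚ) j i := by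
    intro i j
    rw [← Matrix.transpose_apply (1 : Matrix (Fin n) (Fin n) ℚ) j i, Matrix.transpose_one]
  have hdet : (1 : Matrix (Fin n) (Fin n) ℚ).det ≠ 0 := by
    rw [Matrix.det_one]
    exact one_ne_zero
  refine Pool.Agent.W410.PG.FF2.fftG 1 c hs hBD hdet t ?_ hsupp
  intro i u v hu hv
  apply Pool.Agent.W74.PG.kills
  apply ht
  · have h1 := Pool.Agent.W74.PG.skewC (1 : Matrix (Fin n) (Fin n) ℚ) _
      (wedge_skew _ (bilR_symm 1 hs) (cv u) (cv v))
    have h2 : mC (1 : Matrix (Fin n) (Fin n) ℚ) = 1 := by
      unfold mC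
      ext a b
      rw [Matrix.map_apply]
      by_cases hab : a = b
      · rw [hab, Matrix.one_apply_eq, Matrix.one_apply_eq, Rat.cast_one]
      · rw [Matrix.one_apply_ne hab, Matrix.one_apply_ne hab, Rat.cast_zero]
    rw [h2, mul_one, one_mul] at h1
    exact eq_neg_of_add_eq_zero_left h1
  · intro a b hab
    have hz : ∀ (w : Fin n → ℚ), (∀ x, c x ≠ i → w x = 0) → c b ≠ i →
        bilR 1 (cv w) (Pi.single b 1) = 0 := by
      intro w hw hb
      rw [bilR_apply]
      refine sum_eq_zero fun x _ => sum_eq_zero fun y _ => ?_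
      by_cases hx : c x = i
      · by_cases hy : y = b
        · subst hy
          rw [hBD x y (by rw [hx]; exact Ne.symm hb), Rat.cast_zero, mul_zero, zero_mul]
        · rw [Pi.single_eq_of_ne hy, mul_zero]
      · simp only [cv]
        rw [hw x hx, Rat.cast_zero, zero_mul, zero_mul]
    rw [Matrix.map_apply, LinearMap.toMatrix'_apply, wedge_apply]
    by_cases hb : c b = i
    · have ha : c a ≠ i := fun h => hab (by rw [h, hb])
      simp only [Pi.sub_apply, Pi.smul_apply, cv, hu a ha, hv a ha, Rat.cast_zero, smul_zero,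
        sub_zero, Complex.ofReal_zero]
    · rw [hz u hu hb, hz v hv hb]
      simp

theorem hcx : S_hcx := by
  intro n r s m c d a t ht hcol hcnt
  have hBD : BD c (1 : Matrix (Fin n) (Fin n) ℚ) := by
    intro a b hab
    exact Matrix.one_apply_ne (fun h => hab (by rw [h]))
  have hpt : prj c d a t = t := by
    funext J
    rw [prj_apply]
    split_ifs with hJ
    · rfl
    · by_contra hne
      exact hJ (hcol J (fun h => hne h.symm))
  rw [← hpt, t_eq t, map_sum]
  refine Submodule.sum_mem _ fun q _ => ?_
  have h1 := ffx c (fun K => t (mk q K)) (fun Z hZ hZc => slice Z t (ht Z hZ hZc) q) (by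
    intro K hK i
    refine lt_of_le_of_lt ?_ (hcnt _ hK i)
    refine Finset.card_le_card_of_injOn (fun j => (ee q j : Fin m)) ?_ ?_
    · intro j hj
      rw [Finset.mem_coe, Finset.mem_filter] at hj ⊢
      exact ⟨Finset.mem_univ _, K j, mk_ee K j, hj.2⟩
    · intro j _ j' _ h
      exact (ee q).injective (Subtype.ext h))
  refine Submodule.span_induction (p := fun u _ => prj c d a (Φ q u) ∈
    algK (1 : Matrix (Fin n) (Fin n) ℚ) c d a) ?_ ?_ ?_ ?_ h1
  · rintro u ⟨σ, κ, h2, h3, h4⟩
    exact gen_mem 1 c d hBD a q σ κ h2 h3 u h4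
  · rw [map_zero, map_zero]
    exact Submodule.zero_mem _
  · intro u u' _ _ h2 h3
    rw [map_add, map_add]
    exact Submodule.add_mem _ h2 h3
  · intro x u _ h2
    rw [map_smul, map_smul]
    exact Submodule.smul_mem _ _ h2

end

end Pool.Agent.W216.TP
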