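import Pool.Agent.W544.PG.Defs8

/-!
# Descent of linear equations
-/

set_option autoImplicit false

open Matrix Finset Module

namespace Pool.Agent.W216.TP

theorem dk : Pool.Agent.W544.PG.S_dk := by
  intro K _ ι X _ E t hE
  classical
  letI : Algebra K ℂ := ι.toAlgebra
  have hsm : ∀ (a : K) (z : ℂ), a • z = ι a * z := fun a z => by
    rw [Algebra.smul_def]; rfl
  set b := Module.Basis.ofVectorSpace K ℂ with hb
  set S := (univ : Finset X).biUnion fun x => (b.repr (t x)).support with hS
  have ht : t = ∑ i ∈ S, (b i) • (fun x => ι (b.repr (t x) i)) := by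
    funext x
    rw [Finset.sum_apply]
    simp only [Pi.smul_apply, smul_eq_mul]
    have h1 : t x = ∑ i ∈ (b.repr (t x)).support, b.repr (t x) i • b i := by
      have h2 := b.linearCombination_repr (t x)
      rw [Finsupp.linearCombination_apply, Finsupp.sum] at h2
      exact h2.symm
    have h3 : ∑ i ∈ (b.repr (t x)).support, b.repr (t x) i • b i =
        ∑ i ∈ S, b.repr (t x) i • b i := by
      apply Finset.sum_subset
      · intro i hi
        rw [hS, Finset.mem_biUnion]
        exact ⟨x, Finset.mem_univ x, hi⟩
      · intro i _ hi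
        rw [Finsupp.notMem_support_iff.1 hi, zero_smul]
    conv_lhs => rw [h1, h3]
    refine Finset.sum_congr rfl fun i _ => ?_
    rw [hsm, mul_comm]
  rw [ht]
  refine Submodule.sum_mem _ fun i _ => Submodule.smul_mem _ _ (Submodule.subset_span ?_)
  refine ⟨fun x => b.repr (t x) i, rfl, fun e he => ?_⟩
  have h1 : b.repr (∑ x, e x • t x) i = 0 := by
    have h2 : ∑ x, e x • t x = 0 := by
      rw [← hE e he]
      exact Finset.sum_congr rfl fun x _ => hsm _ _
    rw [h2, map_zero]; rfl
  rw [map_sum, Finsupp.finsetSum_apply] at h1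
  rw [← h1]
  refine Finset.sum_congr rfl fun x _ => ?_
  rw [map_smul, Finsupp.smul_apply, smul_eq_mul]

theorem mk : Pool.Agent.W544.PG.S_mk := by
  intro K _ ι X _ G v hv
  classical
  by_contra hn
  obtain ⟨f, hf1, hf2⟩ := Submodule.exists_le_ker_of_notMem hn
  have hfs : ∀ w : X → K, f w = ∑ x, f (Pi.single x 1) * w x := by
    intro w
    have h1 : w = ∑ x, w x • (Pi.single x (1 : K) : X → K) := by
      funext y
      rw [Finset.sum_apply]
      simp only [Pi.smul_apply, smul_eq_mul, Pi.single_apply, mul_ite, mul_one, mul_zero]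
      rw [Finset.sum_ite_eq]
      simp
    conv_lhs => rw [h1]
    rw [map_sum]
    refine Finset.sum_congr rfl fun x _ => ?_
    rw [map_smul, smul_eq_mul, mul_comm]
  have key : ∀ u ∈ Submodule.span ℂ {u : X → ℂ | ∃ w ∈ G, u = fun x => ι (w x)},
      ∑ x, ι (f (Pi.single x 1)) * u x = 0 := by
    intro u hu
    induction hu using Submodule.span_induction with
    | mem u hu =>
      obtain ⟨w, hw, rfl⟩ := hu
      have h1 : f w = 0 := hf2 (Submodule.subset_span hw)
      rw [hfs] at h1
      have h2 := congrArg ι h1
      rw [map_sum, map_zero] at h2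
      rw [← h2]
      exact Finset.sum_congr rfl fun x _ => (map_mul ι _ _).symm
    | zero => simp
    | add a b _ _ ha hb =>
      simp only [Pi.add_apply, mul_add, Finset.sum_add_distrib, ha, hb, add_zero]
    | smul c a _ ha =>
      have h1 : ∑ x, ι (f (Pi.single x 1)) * (c • a) x =
          c * ∑ x, ι (f (Pi.single x 1)) * a x := by
        rw [Finset.mul_sum]
        refine Finset.sum_congr rfl fun x _ => ?_
        simp only [Pi.smul_apply, smul_eq_mul]
        ring
      rw [h1, ha, mul_zero]
  have h1 := key _ hv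
  have h2 : ι (f v) = 0 := by
    rw [hfs, map_sum, ← h1]
    exact Finset.sum_congr rfl fun x _ => map_mul ι _ _
  exact hf1 (by rwa [map_eq_zero] at h2)

end Pool.Agent.W216.TP
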